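import Mathlib
import Pool.Agent.H14.CommDiam

set_option autoImplicit false

namespace Pool.Agent.Results.MP_cf426b_al.Rank3

open Pool.Agent.H14.CommDiam in
theorem result : ∃ d : ℕ, 1 ≤ d ∧ ∀ D : ℕ, ∃ (T : Type) (_ : Semigroup T), Finite T ∧ RankLE T d ∧
    (commGraph T).Connected ∧ (D : ℕ∞) ≤ (commGraph T).ediam :=
  ⟨3, by norm_num, fun D => have : NeZero (2 * (4 * D + 3)) := ⟨by omega⟩
    ⟨S (2 * (4 * D + 3)), inferInstance, inferInstance, rank, main D _ rfl⟩⟩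

end Pool.Agent.Results.MP_cf426b_al.Rank3
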